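import Mathlib

/-!
# Chow polynomials of simplicial posets without positivity of the h-vector

We disprove the statement that for every finite graded simplicial poset `P` the augmented
polynomial `H^aug` of `P ∪ {1̂}` is real-rooted.  The counterexample is the face poset (with the
empty face) of two disjoint triangles, for which `H^aug = x^4 + 15 x^3 + 27 x^2 + 15 x + 1`.
-/

namespace Pool.Agent.Results.MP_308f9e_co.TwoTriangles

open Polynomial

/-- `P` (a finite poset with least element) is a finite graded simplicial poset of rank `n ≥ 1`: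
every maximal interval `[0̂, m]`, `m` maximal, is isomorphic to the Boolean lattice of rank `n`. -/
def IsSimplicialPoset (P : Type) [Fintype P] [PartialOrder P] [OrderBot P] (n : ℕ) : Prop :=
  1 ≤ n ∧ ∀ m : P, IsMax m → Nonempty (Set.Icc (⊥ : P) m ≃o Finset (Fin n))

/-- The rank of an element of a finite graded poset: the length of a longest chain below it. -/
noncomputable def rk (Q : Type) [PartialOrder Q] (y : Q) : ℕ := (Order.height y).toNat

/-- The flag `f`-vector of a finite bounded graded poset `Q`: the number of chains of elements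
strictly between `0̂` and `1̂` whose set of ranks is exactly `T`. -/
noncomputable def flagF (Q : Type) [PartialOrder Q] [BoundedOrder Q] (T : Finset ℕ) : ℕ :=
  Set.ncard {c : Finset Q | (∀ y ∈ c, ⊥ < y ∧ y < ⊤) ∧ (∀ y ∈ c, ∀ z ∈ c, y ≤ z ∨ z ≤ y) ∧
    (rk Q) '' (c : Set Q) = (T : Set ℕ)}

/-- The flag `h`-vector `β(S) = ∑_{T ⊆ S} (-1)^{|S \ T|} α(T)`. -/
noncomputable def flagH (Q : Type) [PartialOrder Q] [BoundedOrder Q] (S : Finset ℕ) : ℤ :=
  ∑ T ∈ S.powerset, (-1) ^ (S \ T).card * (flagF Q T : ℤ)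

/-- A set of integers is isolated if it contains no two consecutive integers. -/
def Isolated (S : Finset ℕ) : Prop := ∀ i ∈ S, i + 1 ∉ S

instance : DecidablePred Isolated := fun S => by unfold Isolated; infer_instance

/-- `H^aug_Q` for a finite bounded graded poset `Q` of rank `n + 1`. -/
noncomputable def chowAug (Q : Type) [PartialOrder Q] [BoundedOrder Q] (n : ℕ) : ℤ[X] :=
  ∑ S ∈ (Finset.Icc 1 n).powerset with Isolated S,
    C (flagH Q S) * X ^ S.card * (1 + X) ^ (n + 1 - 2 * S.card)

/-! ### The counterexample -/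

/-- Faces of the simplicial complex consisting of two disjoint triangles. -/
abbrev TT : Type := {s : Finset (Fin 6) // s ⊆ {0, 1, 2} ∨ s ⊆ {3, 4, 5}}

instance : OrderBot TT where
  bot := ⟨∅, Or.inl (Finset.empty_subset _)⟩
  bot_le := fun s => Finset.empty_subset s.1

/-- The rank function on `TT ∪ {1̂}`. -/
def r : WithTop TT → ℕ
  | ⊤ => 4
  | (s : TT) => s.1.card

lemma r_strict (y z : WithTop TT) (h : y < z) : r y < r z := by
  revert y z
  decide +kernel

lemma r_pred (z : WithTop TT) : r z = 0 ∨ ∃ y < z, r y + 1 = r z := by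
  revert z
  decide +kernel

lemma height_eq (z : WithTop TT) : Order.height z = (r z : ℕ∞) := by
  have key : ∀ (n : ℕ) (z : WithTop TT), r z = n → Order.height z = (n : ℕ∞) := by
    intro n
    induction n using Nat.strong_induction_on with
    | _ n ih =>
      intro z hz
      have hlt : ∀ y < z, Order.height y < (n : ℕ∞) := by
        intro y hy
        have h1 := r_strict y z hy
        rw [ih (r y) (by omega) y rfl]
        exact_mod_cast (by omega : r y < n)
      have hle : Order.height z ≤ (n : ℕ∞) := Order.height_le_coe_iff.mpr hlt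
      refine le_antisymm hle ?_
      rcases r_pred z with h0 | ⟨y, hy, hyz⟩
      · have : n = 0 := by omega
        simp [this]
      · have h2 := Order.height_add_one_le hy
        rw [ih (r y) (by omega) y rfl] at h2
        have : ((r y : ℕ∞) + 1) = (n : ℕ∞) := by
          exact_mod_cast (by omega : r y + 1 = n)
        rwa [this] at h2
  exact key (r z) z rfl

lemma rk_eq (z : WithTop TT) : rk (WithTop TT) z = r z := by
  rw [rk, height_eq]; rfl

/-- Number of chains, in computable form. -/
def cnt (T : Finset ℕ) : ℕ :=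
  ((((Finset.powersetCard T.card (Finset.univ : Finset (WithTop TT))).filter
    (fun c => c.image r = T)).filter
      (fun c => ∀ y ∈ c, ⊥ < y ∧ y < ⊤)).filter
        (fun c => ∀ y ∈ c, ∀ z ∈ c, y ≤ z ∨ z ≤ y)).card

lemma flagF_eq (T : Finset ℕ) : flagF (WithTop TT) T = cnt T := by
  unfold flagF cnt
  rw [← Set.ncard_coe_finset]
  congr 1
  ext c
  simp only [Set.mem_ofPred_eq, Finset.mem_coe, Finset.mem_filter, Finset.mem_powersetCard,
    Finset.subset_univ, true_and]
  have hrk : (rk (WithTop TT)) = r := funext rk_eq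
  rw [hrk]
  have h1 : (r '' (c : Set (WithTop TT)) = (T : Set ℕ)) ↔ c.image r = T := by
    rw [← Finset.coe_image, Finset.coe_inj]
  rw [h1]
  constructor
  · rintro ⟨ha, hb, hc⟩
    refine ⟨⟨⟨?_, hc⟩, ha⟩, hb⟩
    rw [← hc]
    symm
    apply Finset.card_image_of_injOn
    intro y hy z hz hyz
    by_contra hne
    rcases hb y hy z hz with h | h
    · have := r_strict y z (lt_of_le_of_ne h hne)
      omega
    · have := r_strict z y (lt_of_le_of_ne h (Ne.symm hne))
      omega
  · rintro ⟨⟨⟨-, hc⟩, ha⟩, hb⟩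
    exact ⟨ha, hb, hc⟩

lemma cnt_empty : cnt ∅ = 1 := by decide +kernel
lemma cnt_1 : cnt {1} = 6 := by decide +kernel
lemma cnt_2 : cnt {2} = 6 := by decide +kernel
lemma cnt_3 : cnt {3} = 2 := by decide +kernel
lemma cnt_13 : cnt {1, 3} = 6 := by decide +kernel

lemma iso_sets : (Finset.Icc 1 3).powerset.filter Isolated = {∅, {1}, {2}, {3}, {1, 3}} := by
  decide +kernel

lemma chowAug_eq : chowAug (WithTop TT) 3 =
    X ^ 4 + 15 * X ^ 3 + 27 * X ^ 2 + 15 * X + 1 := by
  have e0 : flagH (WithTop TT) ∅ = 1 := by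
    simp [flagH, flagF_eq, cnt_empty]
  have e1 : flagH (WithTop TT) {1} = 5 := by
    have : ({1} : Finset ℕ).powerset = {∅, {1}} := by decide
    rw [flagH, this, Finset.sum_pair (by decide)]
    simp [flagF_eq, cnt_empty, cnt_1]
  have e2 : flagH (WithTop TT) {2} = 5 := by
    have : ({2} : Finset ℕ).powerset = {∅, {2}} := by decide
    rw [flagH, this, Finset.sum_pair (by decide)]
    simp [flagF_eq, cnt_empty, cnt_2]
  have e3 : flagH (WithTop TT) {3} = 1 := by
    have : ({3} : Finset ℕ).powerset = {∅, {3}} := by decide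
    rw [flagH, this, Finset.sum_pair (by decide)]
    simp [flagF_eq, cnt_empty, cnt_3]
  have e13 : flagH (WithTop TT) {1, 3} = -1 := by
    have : ({1, 3} : Finset ℕ).powerset = {∅, {1}, {3}, {1, 3}} := by decide
    rw [flagH, this, Finset.sum_insert (by decide), Finset.sum_insert (by decide),
      Finset.sum_pair (by decide)]
    have h1 : (({1, 3} : Finset ℕ) \ ∅).card = 2 := by decide
    have h2 : (({1, 3} : Finset ℕ) \ {1}).card = 1 := by decide
    have h3 : (({1, 3} : Finset ℕ) \ {3}).card = 1 := by decide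
    have h4 : (({1, 3} : Finset ℕ) \ {1, 3}).card = 0 := by decide
    rw [h1, h2, h3, h4, flagF_eq, flagF_eq, flagF_eq, flagF_eq, cnt_empty, cnt_1, cnt_3, cnt_13]
    norm_num
  rw [chowAug, iso_sets, Finset.sum_insert (by decide), Finset.sum_insert (by decide),
    Finset.sum_insert (by decide), Finset.sum_pair (by decide), e0, e1, e2, e3, e13]
  have c13 : ({1, 3} : Finset ℕ).card = 2 := by decide
  rw [c13]
  simp only [Finset.card_empty, Finset.card_singleton]
  have k1 : (C (5 : ℤ) : ℤ[X]) = 5 := rfl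
  have k2 : (C (-1 : ℤ) : ℤ[X]) = -1 := by simp
  have k3 : (C (1 : ℤ) : ℤ[X]) = 1 := by simp
  rw [k1, k2, k3]
  norm_num
  ring

/-- The Boolean interval below the facet `m`, where `m` is one of the two triangles. -/
lemma boolean_interval (m : TT) (hm : m.1.card = 3) :
    Nonempty (Set.Icc (⊥ : TT) m ≃o Finset (Fin 3)) := by
  obtain ⟨e⟩ : Nonempty (Fin 3 ≃ m.1) := ⟨(m.1.equivFinOfCardEq hm).symm⟩
  -- the order isomorphism `Finset (Fin 3) ≃o Finset m.1`
  have hm' : m.1 ⊆ {0, 1, 2} ∨ m.1 ⊆ {3, 4, 5} := m.2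
  let f : Finset (Fin 3) → Set.Icc (⊥ : TT) m := fun A =>
    ⟨⟨A.map ⟨fun i => ((e i : m.1) : Fin 6), fun i j h => e.injective (Subtype.ext h)⟩, by
      have hsub : A.map ⟨fun i => ((e i : m.1) : Fin 6), fun i j h => e.injective (Subtype.ext h)⟩
          ⊆ m.1 := by
        intro x hx
        rw [Finset.mem_map] at hx
        obtain ⟨i, _, rfl⟩ := hx
        exact (e i).2
      rcases hm' with h | h
      · exact Or.inl (hsub.trans h)
      · exact Or.inr (hsub.trans h)⟩, bot_le, by
      intro x hx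
      have hx' : x ∈ A.map ⟨fun i => ((e i : m.1) : Fin 6),
        fun i j h => e.injective (Subtype.ext h)⟩ := hx
      rw [Finset.mem_map] at hx'
      obtain ⟨i, _, rfl⟩ := hx'
      exact (e i).2⟩
  have hf : ∀ A B, f A ≤ f B ↔ A ≤ B := by
    intro A B
    change A.map _ ⊆ B.map _ ↔ A ⊆ B
    exact Finset.map_subset_map
  have hsurj : Function.Surjective f := by
    intro s
    refine ⟨Finset.univ.filter (fun i => ((e i : m.1) : Fin 6) ∈ s.1.1), ?_⟩
    apply Subtype.ext
    apply Subtype.ext
    change Finset.map _ _ = s.1.1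
    ext x
    rw [Finset.mem_map]
    constructor
    · rintro ⟨i, hi, rfl⟩
      exact (Finset.mem_filter.mp hi).2
    · intro hx
      have hxm : x ∈ m.1 := (s.2.2 : s.1 ≤ m) hx
      refine ⟨e.symm ⟨x, hxm⟩, ?_, ?_⟩
      · rw [Finset.mem_filter]
        refine ⟨Finset.mem_univ _, ?_⟩
        rw [Equiv.apply_symm_apply]
        exact hx
      · change ((e (e.symm ⟨x, hxm⟩) : m.1) : Fin 6) = x
        rw [Equiv.apply_symm_apply]
  have hinj : Function.Injective f := by
    intro A B h
    exact le_antisymm ((hf A B).mp h.le) ((hf B A).mp h.ge)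
  exact ⟨(OrderIso.symm ⟨Equiv.ofBijective f ⟨hinj, hsurj⟩, by
    intro A B
    exact hf A B⟩)⟩

lemma max_card (m : TT) (hm : IsMax m) : m.1.card = 3 := by
  have h : ∀ m : TT, m.1.card = 3 ∨ ∃ y : TT, m < y := by decide +kernel
  rcases h m with h | ⟨y, hy⟩
  · exact h
  · exact absurd hm (not_isMax_of_lt hy)

lemma simplicial : IsSimplicialPoset TT 3 :=
  ⟨by norm_num, fun m hm => boolean_interval m (max_card m hm)⟩

/-- There is a finite graded simplicial poset `P` (of rank 3) such that the polynomial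
`H^aug` of `P ∪ {1̂}` has a non-real root. -/
theorem result : ∃ (P : Type) (_ : Fintype P) (_ : PartialOrder P) (_ : OrderBot P) (n : ℕ),
    IsSimplicialPoset P n ∧ ∃ z : ℂ, z.im ≠ 0 ∧ aeval z (chowAug (WithTop P) n) = 0 := by
  refine ⟨TT, inferInstance, inferInstance, inferInstance, 3, simplicial, ?_⟩
  rw [chowAug_eq]
  -- y = (-15 + 5 √5)/2, z = (y + i √(4 - y²))/2
  set q : ℝ := Real.sqrt 5 with hq
  have hq2 : q ^ 2 = 5 := Real.sq_sqrt (by norm_num)
  have hq0 : 0 ≤ q := Real.sqrt_nonneg 5
  have hq3 : 2.2 < q := by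
    nlinarith
  have hq4 : q < 2.3 := by
    nlinarith
  set y : ℝ := (-15 + 5 * q) / 2 with hy
  have hy2 : y ^ 2 + 15 * y + 25 = 0 := by
    rw [hy]; nlinarith
  have hpos : 0 < 4 - y ^ 2 := by
    have : y ^ 2 = -15 * y - 25 := by linarith
    rw [this, hy]
    have h5 : 2.23 < q := by nlinarith
    have h6 : q < 2.24 := by nlinarith
    linarith
  set w : ℝ := Real.sqrt (4 - y ^ 2) with hw
  have hw2 : w ^ 2 = 4 - y ^ 2 := Real.sq_sqrt hpos.le
  have hw0 : 0 < w := Real.sqrt_pos.mpr hpos
  refine ⟨⟨y / 2, w / 2⟩, ?_, ?_⟩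
  · simp only
    positivity
  · set z : ℂ := ⟨y / 2, w / 2⟩ with hz
    have hz1 : z ^ 2 - (y : ℂ) * z + 1 = 0 := by
      apply Complex.ext
      · simp [hz, pow_two]
        nlinarith
      · simp [hz, pow_two]
        ring
    have hy3 : (y : ℂ) ^ 2 + 15 * y + 25 = 0 := by
      exact_mod_cast hy2
    simp only [map_add, map_mul, map_pow, aeval_X, map_one, map_ofNat]
    have : z ^ 4 + 15 * z ^ 3 + 27 * z ^ 2 + 15 * z + 1 =
        (z ^ 2 - y * z + 1) * (z ^ 2 + (15 + y) * z + 1)
          + (y ^ 2 + 15 * y + 25) * z ^ 2 := by ring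
    rw [this, hz1, hy3]
    ring

end Pool.Agent.Results.MP_308f9e_co.TwoTriangles
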